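import Pool.Agent.KS6_19.CG.Deg

/-!
The pre-Bloch group of a function field of one variable over an algebraically closed field is
generated by functions of bounded degree.
-/

set_option autoImplicit false
set_option linter.unusedSectionVars false

namespace Pool.Agent.KS6_19.PB

open FF Module IntermediateField

/-- The relations of the pre-Bloch group: `[0]`, `[1]`, and the five term relations. -/
def rels (F : Type*) [Field F] : Set (F →₀ ℚ) :=
  {r | r = Finsupp.single 0 1 ∨ r = Finsupp.single 1 1 ∨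
    ∃ x y : F, x ≠ 0 ∧ x ≠ 1 ∧ y ≠ 0 ∧ y ≠ 1 ∧ x ≠ y ∧
      r = Finsupp.single x 1 - Finsupp.single y 1 + Finsupp.single (y / x) 1 -
        Finsupp.single ((1 - x⁻¹) / (1 - y⁻¹)) 1 + Finsupp.single ((1 - x) / (1 - y)) 1}

section curve

variable {k K : Type*} [Field k] [Field K] [Algebra k K] [CharZero k] [IsAlgClosed k] [IsFF k K]

theorem deg_eq_one (P : Place k K) : P.deg = 1 := by
  have hb : Function.Bijective (algebraMap k P.RF) := by
    have : Algebra.IsIntegral k P.RF := inferInstance
    exact ⟨(algebraMap k P.RF).injective, IsAlgClosed.algebraMap_bijective_of_isIntegral.2⟩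
  have e : k ≃ₗ[k] P.RF := LinearEquiv.ofBijective (Algebra.linearMap k P.RF) hb
  show finrank k P.RF = 1
  rw [← e.finrank_eq, finrank_self]

theorem ddeg_eq_sum (D : Place k K →₀ ℤ) : ddeg D = D.sum fun _ n => n := by
  unfold ddeg
  simp [deg_eq_one]

/-- An effective divisor has subdivisors of all smaller degrees. -/
theorem exists_sub {D : Place k K →₀ ℤ} (hD : 0 ≤ D) (t : ℕ) (ht : (t : ℤ) ≤ ddeg D) :
    ∃ T : Place k K →₀ ℤ, 0 ≤ T ∧ T ≤ D ∧ ddeg T = t := by
  induction t with
  | zero => exact ⟨0, le_rfl, hD, by rw [ddeg_zero]; rfl⟩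
  | succ t ih =>
    push_cast at ht
    obtain ⟨T, hT0, hTD, hT⟩ := ih (by omega)
    have hne : ∃ P, T P < D P := by
      by_contra hc
      push Not at hc
      have : D ≤ T := fun P => hc P
      have := ddeg_mono this
      omega
    obtain ⟨P, hP⟩ := hne
    refine ⟨T + Finsupp.single P 1, ?_, ?_, ?_⟩
    · exact add_nonneg hT0 (Finsupp.single_nonneg.2 zero_le_one)
    · intro Q
      rw [Finsupp.add_apply]
      by_cases hQ : Q = P
      · subst hQ
        rw [Finsupp.single_eq_same]
        omega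
      · rw [Finsupp.single_eq_of_ne hQ, add_zero]
        exact hTD Q
    · rw [ddeg_add, hT, ddeg_single, deg_eq_one]
      push_cast
      ring

/-- The degree of a quotient of two functions with a common part in their divisors. -/
theorem ddeg_polar_div_le {u v : K} (hu : u ≠ 0) (hv : v ≠ 0) {D R : Place k K →₀ ℤ}
    (h1 : R ≤ divisor k u + D) (h2 : R ≤ divisor k v + D) :
    ddeg (polar (k := k) (u / v)) ≤ ddeg D - ddeg R := by
  have h : polar (k := k) (u / v) ≤ divisor k v + D - R := by
    intro P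
    have a1 := h1 P
    have a2 := h2 P
    rw [Finsupp.add_apply, divisor_apply] at a1 a2
    rw [polar_apply, Finsupp.sub_apply, Finsupp.add_apply, divisor_apply, P.ord_div hu hv]
    omega
  have := ddeg_mono h
  rw [ddeg_sub, ddeg_add, ddeg_divisor] at this
  omega

/-- The divisor of zeros of `x`. -/
theorem zero_apply (x : K) (P : Place k K) : polar (k := k) x⁻¹ P = max (P.ord x) 0 := by
  rw [polar_apply, P.ord_inv, neg_neg]

theorem ddeg_zero_eq {x : K} : ddeg (polar (k := k) x⁻¹) = ddeg (polar (k := k) x) := by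
  have h : polar (k := k) x⁻¹ - polar x = divisor k x := by
    ext P
    rw [Finsupp.sub_apply, polar_apply, polar_apply, divisor_apply, P.ord_inv]
    omega
  have := ddeg_divisor (k := k) (K := K) x
  rw [← h, ddeg_sub] at this
  omega

theorem polar_one_sub {x : K} (h0 : x ≠ 0) (h1 : x ≠ 1) :
    polar (k := k) (1 - x) = polar (k := k) x := by
  have h : (1 : K) - x ≠ 0 := sub_ne_zero.2 h1.symm
  ext P
  rw [polar_apply, polar_apply]
  by_cases hx : P.ord x < 0
  · have : P.ord (1 - x) = P.ord x := by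
      have e : 1 - x = -x + 1 := by ring
      rw [e, (P.ord_add_eq (neg_ne_zero.2 h0) one_ne_zero
        (by rw [P.ord_neg, P.ord_one]; exact hx)).2, P.ord_neg]
    rw [this]
  · have : 0 ≤ P.ord (1 - x) := by
      have e : 1 - x = 1 + -x := by ring
      have h2 := P.ord_add (f := 1) (g := -x) one_ne_zero (neg_ne_zero.2 h0) (by rwa [← e])
      rw [P.ord_one, P.ord_neg, ← e] at h2
      have : min 0 (P.ord x) = 0 := min_eq_left (by omega)
      omega
    omega

variable {g : ℤ} (hR : ∀ D : Place k K →₀ ℤ, ddeg D + 1 - g ≤ ell D)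

include hR

/-- The genus is not negative. -/
theorem genus_nonneg : 0 ≤ g := by
  obtain ⟨P, -⟩ := exists_place (k := k) (K := K)
  have h1 := hR 0
  have h2 : ell (0 : Place k K →₀ ℤ) ≤ ell (-Finsupp.single P 1) +
      (ddeg (0 : Place k K →₀ ℤ) - ddeg (-Finsupp.single P 1)) := by
    apply ell_le
    rw [neg_nonpos]
    exact Finsupp.single_nonneg.2 zero_le_one
  have h3 : ell (-Finsupp.single P 1 : Place k K →₀ ℤ) = 0 := by
    have : LL (-Finsupp.single P 1 : Place k K →₀ ℤ) = ⊥ :=
      LL_eq_bot (by rw [ddeg_neg, ddeg_single, deg_eq_one]; norm_num)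
    unfold ell
    rw [this]
    simp
  rw [h3, ddeg_neg, ddeg_single, deg_eq_one, ddeg_zero] at h2
  rw [ddeg_zero] at h1
  push_cast at h2
  omega

/-- Two functions `p`, `q` with prescribed common behaviour. -/
theorem exists_pq {e : ℤ} {T₀ T₁ T₂ E : Place k K →₀ ℤ} (hE : ddeg E = e)
    (h₀ : 0 ≤ T₀) (h₁ : 0 ≤ T₁) (h₂ : 0 ≤ T₂) {t : ℤ} (ht₀ : ddeg T₀ = t) (ht₁ : ddeg T₁ = t)
    (ht₂ : ddeg T₂ = t) (h : t < 2 * (e - t + 1 - g)) :
    ∃ p q : K, (p ≠ 0 ∨ q ≠ 0) ∧ p ∈ LL (E - T₀) ∧ q ∈ LL (E - T₂) ∧ p - q ∈ LL (E - T₁) := by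
  have le₀ : LL (E - T₀) ≤ LL E := LL_mono (sub_le_self _ h₀)
  have le₂ : LL (E - T₂) ≤ LL E := LL_mono (sub_le_self _ h₂)
  have le₁ : LL (E - T₁) ≤ LL E := LL_mono (sub_le_self _ h₁)
  set S : Submodule k (LL E) := (LL (E - T₁)).comap (LL E).subtype with hS
  let φ : (LL (E - T₀) × LL (E - T₂)) →ₗ[k] (LL E ⧸ S) :=
    S.mkQ ∘ₗ ((Submodule.inclusion le₀).coprod (-(Submodule.inclusion le₂)))
  have e1 : (finrank k (LL E ⧸ S) : ℤ) ≤ t := by
    have a1 := Submodule.finrank_quotient_add_finrank S
    have a2 : finrank k S = finrank k (LL (E - T₁)) :=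
      (Submodule.comapSubtypeEquivOfLe le₁).finrank_eq
    have a3 : ell E ≤ ell (E - T₁) + (ddeg E - ddeg (E - T₁)) := ell_le (sub_le_self _ h₁)
    rw [ddeg_sub, ht₁] at a3
    unfold ell at a3
    omega
  have e2 : (finrank k (LL (E - T₀) × LL (E - T₂)) : ℤ) ≥ 2 * (e - t + 1 - g) := by
    rw [finrank_prod]
    have a1 := hR (E - T₀)
    have a2 := hR (E - T₂)
    rw [ddeg_sub, hE, ht₀] at a1
    rw [ddeg_sub, hE, ht₂] at a2
    unfold ell at a1 a2
    push_cast
    omega
  have hker : LinearMap.ker φ ≠ ⊥ := LinearMap.ker_ne_bot_of_finrank_lt (by omega)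
  obtain ⟨⟨p, q⟩, hpq, hne⟩ := Submodule.exists_mem_ne_zero_of_ne_bot hker
  refine ⟨p, q, ?_, p.2, q.2, ?_⟩
  · by_contra hc
    push Not at hc
    apply hne
    ext
    · exact hc.1
    · exact hc.2
  · rw [LinearMap.mem_ker] at hpq
    simp only [φ, LinearMap.comp_apply, LinearMap.coprod_apply, Submodule.mkQ_apply,
      Submodule.Quotient.mk_eq_zero] at hpq
    have : (p : K) + (-(q : K)) ∈ LL (E - T₁) := hpq
    rwa [← sub_eq_add_neg] at this

/-- The key step: a function of degree larger than `4 g + 1` is a combination of functions of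
smaller degree. -/
theorem step (S : Submodule ℚ (K →₀ ℚ)) (hS : ∀ r ∈ rels K, r ∈ S) {x : K} (hx0 : x ≠ 0)
    (hx1 : x ≠ 1) (hm : 4 * g + 1 < ddeg (polar (k := k) x))
    (ih : ∀ y : K, ddeg (polar (k := k) y) < ddeg (polar (k := k) x) → Finsupp.single y 1 ∈ S) :
    Finsupp.single x 1 ∈ S := by
  have hg := genus_nonneg (k := k) (K := K) hR
  set m := ddeg (polar (k := k) x) with hmdef
  have hx1' : (1 : K) - x ≠ 0 := sub_ne_zero.2 hx1.symm
  obtain ⟨t, ht⟩ : ∃ t : ℕ, (t : ℤ) = 2 * g + 1 := ⟨(2 * g + 1).toNat, by omega⟩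
  obtain ⟨T₀, p0, l0, d0⟩ := exists_sub (D := polar (k := k) x⁻¹) (polar_nonneg _) t (by
    rw [ddeg_zero_eq]; omega)
  obtain ⟨T₁, p1, l1, d1⟩ := exists_sub (D := polar (k := k) (1 - x)⁻¹) (polar_nonneg _) t (by
    rw [ddeg_zero_eq, polar_one_sub hx0 hx1]; omega)
  obtain ⟨T₂, p2, l2, d2⟩ := exists_sub (D := polar (k := k) x) (polar_nonneg _) t (by omega)
  obtain ⟨I, -⟩ := exists_place (k := k) (K := K)
  set E : Place k K →₀ ℤ := Finsupp.single I (4 * g + 1) with hEdef
  have hE : ddeg E = 4 * g + 1 := by rw [hEdef, ddeg_single, deg_eq_one]; push_cast; ring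
  obtain ⟨p, q, hne, hp, hq, hpq⟩ := exists_pq hR hE p0 p1 p2 (d0.trans ht) (d1.trans ht)
    (d2.trans ht) (by omega)
  -- the supports of the three divisors are disjoint
  have dis01 : ∀ P, T₀ P = 0 ∨ T₁ P = 0 := by
    intro P
    have a0 := l0 P
    have a1 := l1 P
    have b0 := p0 P
    have b1 := p1 P
    rw [zero_apply] at a0 a1
    rw [Finsupp.zero_apply] at b0 b1
    by_contra hc
    push Not at hc
    have c0 : 0 < P.ord x := by omega
    have c1 : 0 < P.ord (1 - x) := by omega
    have h2 := P.ord_add (f := x) (g := 1 - x) hx0 hx1' (by simp)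
    rw [add_sub_cancel, P.ord_one] at h2
    have := lt_min c0 c1
    omega
  have dis02 : ∀ P, T₀ P = 0 ∨ T₂ P = 0 := by
    intro P
    have a0 := l0 P
    have a1 := l2 P
    have b0 := p0 P
    have b1 := p2 P
    rw [zero_apply] at a0
    rw [polar_apply] at a1
    rw [Finsupp.zero_apply] at b0 b1
    omega
  have dis12 : ∀ P, T₁ P = 0 ∨ T₂ P = 0 := by
    intro P
    have a0 := l1 P
    have a1 := l2 P
    have b0 := p1 P
    have b1 := p2 P
    rw [← polar_one_sub hx0 hx1, polar_apply] at a1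
    rw [zero_apply] at a0
    rw [Finsupp.zero_apply] at b0 b1
    omega
  -- a function in two of the spaces is zero
  have two : ∀ {T T' : Place k K →₀ ℤ}, 0 ≤ T → 0 ≤ T' → ddeg T = t → ddeg T' = t →
      (∀ P, T P = 0 ∨ T' P = 0) → ∀ f : K, f ∈ LL (E - T) → f ∈ LL (E - T') → f = 0 := by
    intro T T' hT hT' hd hd' hdis f hf hf'
    by_contra hf0
    rw [mem_LL' hf0] at hf hf'
    have h3 : 0 ≤ divisor k f + E - (T + T') := by
      intro P
      have a1 := hf P
      have a2 := hf' P
      have a3 := hT P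
      have a4 := hT' P
      simp only [Finsupp.add_apply, Finsupp.sub_apply, Finsupp.zero_apply] at a1 a2 a3 a4 ⊢
      rcases hdis P with h | h <;> omega
    have h4 := ddeg_nonneg h3
    rw [ddeg_sub, ddeg_add, ddeg_add, ddeg_divisor, hE, hd, hd'] at h4
    omega
  have hq0 : q ≠ 0 := by
    intro h0
    rw [h0, sub_zero] at hpq
    exact hne.elim (fun h => h (two p0 p1 d0 d1 dis01 p hp hpq)) (fun h => h h0)
  have hp0 : p ≠ 0 := by
    intro h0
    rw [h0, zero_sub] at hpq
    exact hq0 (two p1 p2 d1 d2 dis12 q (by simpa using neg_mem hpq) hq)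
  have hpq0 : p - q ≠ 0 := by
    intro h0
    rw [sub_eq_zero] at h0
    rw [h0] at hp
    exact hq0 (two p0 p2 d0 d2 dis02 q hp hq)
  rw [mem_LL' hp0] at hp
  rw [mem_LL' hq0] at hq
  rw [mem_LL' hpq0] at hpq
  -- the divisors of the functions involved
  set D : Place k K →₀ ℤ := polar (k := k) x + E with hD
  have dD : ddeg D = m + (4 * g + 1) := by rw [hD, ddeg_add, hE]
  have z0 : divisor k x + polar (k := k) x = polar (k := k) x⁻¹ := by
    ext P; rw [Finsupp.add_apply, polar_apply, zero_apply, divisor_apply]; omega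
  have z1 : divisor k (1 - x) + polar (k := k) x = polar (k := k) (1 - x)⁻¹ := by
    rw [← polar_one_sub hx0 hx1]
    ext P; rw [Finsupp.add_apply, polar_apply, zero_apply, divisor_apply]; omega
  have z1' : divisor k (x - 1) = divisor k (1 - x) := by
    ext P
    rw [divisor_apply, divisor_apply, ← P.ord_neg (x - 1)]
    congr 1
    ring
  have E0 : T₀ ≤ divisor k p + E := by
    intro P; have := hp P
    simp only [Finsupp.add_apply, Finsupp.sub_apply, Finsupp.zero_apply] at this ⊢; omega
  have E2 : T₂ ≤ divisor k q + E := by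
    intro P; have := hq P
    simp only [Finsupp.add_apply, Finsupp.sub_apply, Finsupp.zero_apply] at this ⊢; omega
  have E1 : T₁ ≤ divisor k (p - q) + E := by
    intro P; have := hpq P
    simp only [Finsupp.add_apply, Finsupp.sub_apply, Finsupp.zero_apply] at this ⊢; omega
  have E1' : T₁ ≤ divisor k (q - p) + E := by
    have : divisor k (q - p) = divisor k (p - q) := by
      ext P
      rw [divisor_apply, divisor_apply, ← P.ord_neg (q - p)]
      congr 1
      ring
    rw [this]; exact E1
  have hxm : x - 1 ≠ 0 := sub_ne_zero.2 hx1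
  -- `y = p / q`
  set y : K := p / q with hy
  have hy0 : y ≠ 0 := div_ne_zero hp0 hq0
  have hy1 : y ≠ 1 := by
    intro h
    rw [hy, div_eq_one_iff_eq hq0] at h
    exact hpq0 (sub_eq_zero.2 h)
  have dy : ddeg (polar (k := k) y) ≤ 4 * g + 1 := by
    have := ddeg_polar_div_le (k := k) hp0 hq0 (D := E) (R := 0) (p0.trans E0) (p2.trans E2)
    rw [hE, ddeg_zero, ← hy] at this
    omega
  have hxy : x ≠ y := by
    intro h
    rw [← h] at dy
    omega
  have hyx : (y / x) = p / (x * q) := by rw [hy]; field_simp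
  have d3 : ddeg (polar (k := k) (y / x)) < m := by
    rw [hyx]
    have := ddeg_polar_div_le (k := k) hp0 (mul_ne_zero hx0 hq0) (D := D) (R := T₀ + T₂) ?_ ?_
    · rw [dD, ddeg_add, d0, d2] at this
      omega
    · have := add_le_add E0 l2
      rw [hD]
      calc T₀ + T₂ ≤ divisor k p + E + polar (k := k) x := this
        _ = _ := by abel
    · rw [divisor_mul hx0 hq0, hD]
      calc T₀ + T₂ ≤ (divisor k x + polar (k := k) x) + (divisor k q + E) := by
            rw [z0]; exact add_le_add l0 E2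
        _ = _ := by abel
  have h4 : (1 - x) / (1 - y) = ((1 - x) * q) / (q - p) := by
    rw [hy]
    have : q - p ≠ 0 := by rwa [← neg_sub, neg_ne_zero]
    have h5 : 1 - p / q ≠ 0 := by
      rw [sub_ne_zero]; exact hy1.symm
    field_simp
  have d4 : ddeg (polar (k := k) ((1 - x) / (1 - y))) < m := by
    rw [h4]
    have hqp : q - p ≠ 0 := by rwa [← neg_sub, neg_ne_zero]
    have := ddeg_polar_div_le (k := k) (mul_ne_zero hx1' hq0) hqp (D := D) (R := T₁ + T₂) ?_ ?_
    · rw [dD, ddeg_add, d1, d2] at this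
      omega
    · rw [divisor_mul hx1' hq0, hD]
      calc T₁ + T₂ ≤ (divisor k (1 - x) + polar (k := k) x) + (divisor k q + E) := by
            rw [z1]; exact add_le_add l1 E2
        _ = _ := by abel
    · rw [hD]
      calc T₁ + T₂ ≤ (divisor k (q - p) + E) + polar (k := k) x := add_le_add E1' l2
        _ = _ := by abel
  have h6 : (1 - x⁻¹) / (1 - y⁻¹) = ((x - 1) * p) / (x * (p - q)) := by
    rw [hy]
    have h5 : 1 - (p / q)⁻¹ ≠ 0 := by
      rw [sub_ne_zero, ne_eq, eq_comm, inv_eq_one]
      exact hy1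
    rw [div_eq_div_iff h5 (mul_ne_zero hx0 hpq0)]
    field_simp
  have d6 : ddeg (polar (k := k) ((1 - x⁻¹) / (1 - y⁻¹))) < m := by
    rw [h6]
    have := ddeg_polar_div_le (k := k) (mul_ne_zero hxm hp0) (mul_ne_zero hx0 hpq0) (D := D)
      (R := T₁ + T₀) ?_ ?_
    · rw [dD, ddeg_add, d1, d0] at this
      omega
    · rw [divisor_mul hxm hp0, z1', hD]
      calc T₁ + T₀ ≤ (divisor k (1 - x) + polar (k := k) x) + (divisor k p + E) := by
            rw [z1]; exact add_le_add l1 E0
        _ = _ := by abel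
    · rw [divisor_mul hx0 hpq0, hD]
      calc T₁ + T₀ = T₀ + T₁ := add_comm _ _
        _ ≤ (divisor k x + polar (k := k) x) + (divisor k (p - q) + E) := by
            rw [z0]; exact add_le_add l0 E1
        _ = _ := by abel
  have hrel := hS _ (Or.inr (Or.inr ⟨x, y, hx0, hx1, hy0, hy1, hxy, rfl⟩))
  have i1 := ih y (by omega)
  have i2 := ih _ d3
  have i3 := ih _ d6
  have i4 := ih _ d4
  have key := S.sub_mem (S.add_mem (S.sub_mem (S.add_mem hrel i1) i2) i3) i4
  convert key using 1
  abel

/-- Every element of the pre-Bloch group is a combination of functions of degree at most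
`4 g + 1`. -/
theorem generation (S : Submodule ℚ (K →₀ ℚ)) (hS : ∀ r ∈ rels K, r ∈ S)
    (hN : ∀ y : K, (finrank k⟮y⟯ K : ℤ) ≤ 4 * g + 1 → Finsupp.single y 1 ∈ S) : S = ⊤ := by
  have hg := genus_nonneg (k := k) (K := K) hR
  have hN' : ∀ y : K, ddeg (polar (k := k) y) ≤ 4 * g + 1 → Finsupp.single y 1 ∈ S := by
    intro y hy
    by_cases h : Transcendental k y
    · refine hN y ?_
      rw [← ddeg_polar h]; exact hy
    · rw [Transcendental, not_not] at h
      have h2 : ¬ Module.Finite k⟮y⟯ K := by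
        intro hf
        have h3 : FiniteDimensional k k⟮y⟯ :=
          IntermediateField.adjoin.finiteDimensional h.isIntegral
        have h4 : FiniteDimensional k K := FiniteDimensional.trans k k⟮y⟯ K
        obtain ⟨f, hf⟩ := IsFF.exists_transcendental (k := k) (K := K)
        exact hf (Algebra.IsAlgebraic.isAlgebraic f)
      refine hN y ?_
      rw [Module.finrank_of_not_finite h2]
      push_cast
      omega
  have main : ∀ n : ℕ, ∀ y : K, ddeg (polar (k := k) y) ≤ n → Finsupp.single y 1 ∈ S := by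
    intro n
    induction n with
    | zero =>
      intro y hy
      exact hN' y (by push_cast at hy; omega)
    | succ n ih =>
      intro y hy
      by_cases h : ddeg (polar (k := k) y) ≤ 4 * g + 1
      · exact hN' y h
      by_cases hy0 : y = 0
      · exact hS _ (Or.inl (by rw [hy0]))
      by_cases hy1 : y = 1
      · exact hS _ (Or.inr (Or.inl (by rw [hy1])))
      refine step hR S hS hy0 hy1 (by omega) fun z hz => ih z ?_
      push_cast at hy
      omega
  rw [eq_top_iff]
  intro a _
  induction a using Finsupp.induction_linear with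
  | zero => exact S.zero_mem
  | add a b ha hb => exact S.add_mem (ha trivial) (hb trivial)
  | single y c =>
    have h1 := main (ddeg (polar (k := k) y)).toNat y (by
      have := ddeg_nonneg (polar_nonneg (k := k) y); omega)
    have := S.smul_mem c h1
    rwa [Finsupp.smul_single, smul_eq_mul, mul_one] at this

end curve

end Pool.Agent.KS6_19.PB
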