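import Mathlib

/-!
Averaging over a group which acts with finite orbits.
-/

set_option autoImplicit false

namespace Pool.Agent.KS6_19.PB

/-- For a finite group the sum over the group of the values on an orbit is a multiple of the sum
over the orbit. -/
theorem sum_group {R Y V : Type*} [Group R] [Fintype R] [MulAction R Y] [Fintype Y] [DecidableEq Y]
    [AddCommGroup V] (f : Y → V) (y : Y) :
    ∃ n : ℕ, 0 < n ∧ ∑ ρ : R, f (ρ • y) =
      n • ∑ z ∈ (MulAction.orbit R y).toFinite.toFinset, f z := by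
  classical
  refine ⟨Fintype.card (MulAction.stabilizer R y), Fintype.card_pos, ?_⟩
  rw [Finset.smul_sum]
  have hmaps : ∀ ρ ∈ (Finset.univ : Finset R), ρ • y ∈ (MulAction.orbit R y).toFinite.toFinset := by
    intro ρ _
    rw [Set.Finite.mem_toFinset]
    exact MulAction.mem_orbit y ρ
  rw [← Finset.sum_fiberwise_of_maps_to hmaps]
  refine Finset.sum_congr rfl fun z hz => ?_
  rw [Set.Finite.mem_toFinset] at hz
  obtain ⟨ρ₀, hρ₀⟩ := hz
  have hρ₀ : ρ₀ • y = z := hρ₀
  rw [Finset.sum_congr rfl (g := fun _ => f z)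
    (fun ρ hρ => by rw [Finset.mem_filter] at hρ; rw [hρ.2])]
  rw [Finset.sum_const]
  congr 1
  rw [← Fintype.card_coe]
  refine Fintype.card_congr
    { toFun := fun ρ => ⟨ρ₀⁻¹ * ρ.1, ?_⟩
      invFun := fun s => ⟨ρ₀ * s.1, ?_⟩
      left_inv := fun ρ => by simp
      right_inv := fun s => by simp }
  · have h := (Finset.mem_filter.1 ρ.2).2
    rw [MulAction.mem_stabilizer_iff, mul_smul, h, ← hρ₀, inv_smul_smul]
  · rw [Finset.mem_filter]
    refine ⟨Finset.mem_univ _, ?_⟩
    rw [mul_smul, MulAction.mem_stabilizer_iff.1 s.2, hρ₀]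

/-- An element which is invariant under a group acting with finite orbits is a combination of
orbit sums. -/
theorem invariant_mem {G K V : Type*} [Group G] [MulAction G K] [AddCommGroup V] [Module ℚ V]
    (hG : ∀ x : K, (MulAction.orbit G x).Finite) (b : K → V) (act : G → V →ₗ[ℚ] V)
    (hact : ∀ σ x, act σ (b x) = b (σ • x)) (S : Set K) (α : V)
    (hα : α ∈ Submodule.span ℚ (b '' S)) (hinv : ∀ σ, act σ α = α) :
    α ∈ Submodule.span ℚ {β | ∃ y ∈ S, β = ∑ᶠ z ∈ MulAction.orbit G y, b z} := by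
  classical
  rw [Finsupp.mem_span_image_iff_linearCombination] at hα
  obtain ⟨a, haS, ha⟩ := hα
  rw [Finsupp.mem_supported] at haS
  -- a finite stable set
  let Y : SubMulAction G K :=
    { carrier := ⋃ y ∈ a.support, MulAction.orbit G y
      smul_mem' := by
        intro σ x hx
        simp only [Set.mem_iUnion] at hx ⊢
        obtain ⟨y, hy, hx⟩ := hx
        exact ⟨y, hy, MulAction.mem_orbit_of_mem_orbit σ hx⟩ }
  have hYfin : (Y : Set K).Finite := by
    change (⋃ y ∈ a.support, MulAction.orbit G y).Finite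
    exact Set.Finite.biUnion a.support.finite_toSet (fun y _ => hG y)
  have : Finite Y := hYfin
  let _ : Fintype Y := Fintype.ofFinite Y
  let R := (MulAction.toPermHom G Y).range
  let _ : Fintype R := Fintype.ofFinite R
  have hlift : ∀ ρ : R, ∃ σ : G, ∀ y : Y, ((ρ • y : Y) : K) = σ • (y : K) := by
    rintro ⟨ρ, σ, hσ⟩
    refine ⟨σ, fun y => ?_⟩
    have : (⟨ρ, σ, hσ⟩ : R) • y = ρ y := rfl
    rw [this, ← hσ]
    rfl
  choose lift hlift using hlift
  have hmem : ∀ y ∈ a.support, y ∈ Y := by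
    intro y hy
    change y ∈ ⋃ y ∈ a.support, MulAction.orbit G y
    simp only [Set.mem_iUnion]
    exact ⟨y, hy, MulAction.mem_orbit_self y⟩
  have horb : ∀ y : Y, ∑ z ∈ (MulAction.orbit R y).toFinite.toFinset, b (z : K) =
      ∑ᶠ z ∈ MulAction.orbit G (y : K), b z := by
    intro y
    have himg : MulAction.orbit G (y : K) =
        (fun z : Y => (z : K)) '' ((MulAction.orbit R y).toFinite.toFinset : Set Y) := by
      rw [Set.Finite.coe_toFinset]
      ext z
      constructor
      · rintro ⟨σ, rfl⟩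
        refine ⟨σ • y, ⟨⟨MulAction.toPermHom G Y σ, σ, rfl⟩, rfl⟩, rfl⟩
      · rintro ⟨z, ⟨ρ, rfl⟩, rfl⟩
        refine ⟨lift ρ, ?_⟩
        exact (hlift ρ y).symm
    rw [himg, finsum_mem_image (Subtype.val_injective.injOn)]
    rw [finsum_mem_coe_finset]
  -- average
  have h1 : (Fintype.card R : ℚ) • α = ∑ y ∈ a.support, a y • ∑ ρ : R, b (lift ρ • y) := by
    have h2 : ∀ ρ : R, α = ∑ y ∈ a.support, a y • b (lift ρ • y) := by
      intro ρ
      rw [← hinv (lift ρ), ← ha, Finsupp.linearCombination_apply, Finsupp.sum, map_sum]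
      refine Finset.sum_congr rfl fun y _ => ?_
      rw [map_smul, hact]
    calc (Fintype.card R : ℚ) • α = ∑ ρ : R, α := by
          rw [Finset.sum_const, Finset.card_univ, Nat.cast_smul_eq_nsmul]
      _ = ∑ ρ : R, ∑ y ∈ a.support, a y • b (lift ρ • y) := Finset.sum_congr rfl fun ρ _ => h2 ρ
      _ = ∑ y ∈ a.support, ∑ ρ : R, a y • b (lift ρ • y) := Finset.sum_comm
      _ = _ := Finset.sum_congr rfl fun y _ => by rw [Finset.smul_sum]
  have hcard : (Fintype.card R : ℚ) ≠ 0 := by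
    have : 0 < Fintype.card R := Fintype.card_pos
    exact_mod_cast this.ne'
  have h3 : α = (Fintype.card R : ℚ)⁻¹ • ((Fintype.card R : ℚ) • α) := by
    rw [smul_smul, inv_mul_cancel₀ hcard, one_smul]
  rw [h3, h1]
  refine Submodule.smul_mem _ _ (Submodule.sum_mem _ fun y hy => Submodule.smul_mem _ _ ?_)
  obtain ⟨n, -, hn⟩ := sum_group (R := R) (fun z : Y => b (z : K)) ⟨y, hmem y hy⟩
  have h4 : ∑ ρ : R, b (lift ρ • y) = ∑ ρ : R, b ((ρ • (⟨y, hmem y hy⟩ : Y) : Y) : K) :=
    Finset.sum_congr rfl fun ρ _ => by rw [hlift]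
  rw [h4, hn, horb, ← Nat.cast_smul_eq_nsmul ℚ]
  exact Submodule.smul_mem _ _ (Submodule.subset_span ⟨y, haS hy, rfl⟩)

end Pool.Agent.KS6_19.PB
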